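import Pool.Agent.helper88.OF.Defs
import Pool.Agent.helper52.QR.SP

/-! # Project OF, module MV: modification in one direction, exact form -/

namespace Pool.Agent.helper88.OF

open Finset Pool.Agent.helper76.LP

open Pool.Agent.helper34.DH in
theorem move1 (m : ℕ) [NeZero m] (D e p : ℕ) [NeZero D] [NeZero e] (hD : D ∣ m)
    (he : e * p = D) (hp : p.Prime) (N : (ZMod D)ˣ → ℤ)
    (hN : ∀ u ∈ Gam D p, ∀ x, N (u * x) = N x) (hodd : ∀ x, N (-x) = - N x) :
    ∃ (g : ZMod m → ℤ) (ν : (ZMod e)ˣ → ℤ),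
      (∀ z, N z = ν (ZMod.unitsMap (Dvd.intro p he) z)) ∧ (∀ y, ν (-y) = - ν y) ∧
      (∑ y, |ν y|) * (Nat.card (Gam D p) : ℤ) = ∑ z, |N z| ∧
      (∀ x, anti g x = ext D m N x - ext e m (Rop p e ν) x) ∧
      TateF (anti g) ∧ ∃ j : ℤ, cls m g = j • hh := by
  obtain ⟨ν, h1, h2, h3⟩ := desc_Gam D p e he hp N hN hodd
  have hem : e ∣ m := (Dvd.intro p he).trans hD
  have hpm : p ∣ m := (Dvd.intro_left e he).trans hD
  -- the antisymmetrisation
  have hanti : ∀ x : ZMod m, anti (fun x => ext D m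
      (fun z => SP_pos ν (ZMod.unitsMap (Dvd.intro p he) z)) x -
        ext e m (Rop p e (SP_pos ν)) x) x = ext D m N x - ext e m (Rop p e ν) x := by
    intro x
    have e1 : anti (fun x => ext D m
      (fun z => SP_pos ν (ZMod.unitsMap (Dvd.intro p he) z)) x -
        ext e m (Rop p e (SP_pos ν)) x) x =
        anti (ext D m (fun z => SP_pos ν (ZMod.unitsMap (Dvd.intro p he) z))) x -
          anti (ext e m (Rop p e (SP_pos ν))) x := by
      unfold anti; ring
    rw [e1, anti_ext hD, anti_ext hem]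
    congr 2
    · funext z
      rw [SP_um_neg, SP_pos_sub ν h2, ← h1]
    · funext y
      exact SP_Rop_sub p e ν h2 y
  have hν : ∀ x : ZMod m, ext D m N x - ext e m (Rop p e ν) x =
      ext D m (fun z => ν (ZMod.unitsMap (Dvd.intro p he) z)) x - ext e m (Rop p e ν) x := by
    intro x
    congr 2
    funext z
    exact h1 z
  refine ⟨fun x => ext D m (fun z => SP_pos ν (ZMod.unitsMap (Dvd.intro p he) z)) x -
    ext e m (Rop p e (SP_pos ν)) x, ν, h1, h2, h3, hanti, ?_, ?_⟩
  · intro t
    have e1 : ∀ x : ZMod m, anti (fun x => ext D m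
      (fun z => SP_pos ν (ZMod.unitsMap (Dvd.intro p he) z)) x -
        ext e m (Rop p e (SP_pos ν)) x) x * saw m ((t : ZMod m) * x) =
        ext D m (fun z => ν (ZMod.unitsMap (Dvd.intro p he) z)) x • saw m ((t : ZMod m) * x) -
          ext e m (Rop p e ν) x • saw m ((t : ZMod m) * x) := by
      intro x
      rw [hanti, hν, smul_eq_mul, smul_eq_mul]
      ring
    rw [Finset.sum_congr rfl fun x _ => e1 x, Finset.sum_sub_distrib,
      sum_ext_smul _ (fun x => saw m ((t : ZMod m) * x)),
      sum_ext_smul _ (fun x => saw m ((t : ZMod m) * x)),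
      dist_units m (fun x => saw m ((t : ZMod m) * x)) p hp 0 (fun x => by
        rw [add_zero]
        exact saw_dist m p hp hpm t x) D e hD he ν]
    simp
  · refine ⟨if p = 2 then ∑ y, SP_pos ν y else 0, ?_⟩
    unfold Pool.Agent.helper76.LP.cls
    have e1 : ∀ x : ZMod m, (ext D m (fun z => SP_pos ν (ZMod.unitsMap (Dvd.intro p he) z)) x -
        ext e m (Rop p e (SP_pos ν)) x) • cl m x =
        ext D m (fun z => SP_pos ν (ZMod.unitsMap (Dvd.intro p he) z)) x • cl m x -
          ext e m (Rop p e (SP_pos ν)) x • cl m x := fun x => sub_smul _ _ _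
    rw [Finset.sum_congr rfl fun x _ => e1 x, Finset.sum_sub_distrib, sum_ext_smul, sum_ext_smul,
      dist_units m (cl m) p hp (if p = 2 then hh else 0) (fun x => cl_dist m p hp hpm x) D e hD he
        (SP_pos ν)]
    split_ifs
    · abel
    · simp

end Pool.Agent.helper88.OF
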