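import Pool.Agent.helper88.OF.Defs
import Pool.Agent.helper52.QR.SP

/-! # Project OF, module S2: the step for an arbitrary order -/

namespace Pool.Agent.helper88.OF

open Finset Pool.Agent.helper76.LP

open Pool.Agent.helper34.DH in
theorem step2 (m : ℕ) [NeZero m] (D : ℕ) [NeZero D] (hD : D ∣ m) (c : ZMod m → ℤ)
    (hT : TateF (anti c)) (hdec : Dec D (fun z => anti c (emb D m (z : ZMod D)))) :
    ∃ c' : ZMod m → ℤ, TateF (anti c') ∧ (∀ x, addOrderOf x = D → anti c' x = 0) ∧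
      (∀ x, anti c' x ≠ 0 → anti c x ≠ 0 ∨ ∃ p ∈ D.primeFactors, addOrderOf x = D / p) ∧
      normw (anti c') ≤ normw (anti c) ∧ ∃ j : ℤ, cls m c' = cls m c + j • hh := by
  classical
  obtain ⟨N, hN1, hN2, hN3, hN4⟩ := hdec
  have hD0 : 0 < D := Nat.pos_of_ne_zero (NeZero.ne D)
  have key : ∀ p : ℕ, ∃ g q : ZMod m → ℤ, p ∈ D.primeFactors →
      (∀ z : (ZMod D)ˣ, anti g (emb D m (z : ZMod D)) = N p z) ∧
      (∀ x, addOrderOf x ≠ D → anti g x = - q x) ∧ (∀ x, q x ≠ 0 → addOrderOf x = D / p) ∧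
      (((∑ x, |q x| : ℤ) : ℚ) ≤ ((if p ^ 2 ∣ D then 1 else 2 : ℤ) : ℚ) *
        ((∑ z, |N p z| : ℤ) : ℚ) / (Nat.card (Gam D p) : ℚ)) ∧
      TateF (anti g) ∧ ∃ j : ℤ, cls m g = j • hh := by
    intro p
    by_cases hp : p ∈ D.primeFactors
    · have hpp := Nat.prime_of_mem_primeFactors hp
      have hpd := Nat.dvd_of_mem_primeFactors hp
      have : NeZero (D / p) := ⟨(Nat.div_pos (Nat.le_of_dvd hD0 hpd) hpp.pos).ne'⟩
      obtain ⟨g, q, h⟩ := SP_one m D (D / p) p hD (Nat.div_mul_cancel hpd) hpp (N p) (hN1 p hp)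
        (hN3 p hp)
      exact ⟨g, q, fun _ => h⟩
    · exact ⟨0, 0, fun h => absurd h hp⟩
  choose G Q hGQ using key
  have hanti : ∀ x, anti (fun x => c x - ∑ p ∈ D.primeFactors, G p x) x =
      anti c x - ∑ p ∈ D.primeFactors, anti (G p) x := SP_sum_anti _ _ _
  have hfull : ∀ x, addOrderOf x = D →
      anti (fun x => c x - ∑ p ∈ D.primeFactors, G p x) x = 0 := by
    intro x hx
    obtain ⟨z, rfl⟩ := exists_emb x hx
    have h := hN2 z
    simp only at h
    rw [hanti, h, sub_eq_zero]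
    exact Finset.sum_congr rfl fun p hp => ((hGQ p hp).1 z).symm
  have hrest : ∀ x, addOrderOf x ≠ D →
      anti (fun x => c x - ∑ p ∈ D.primeFactors, G p x) x =
        anti c x + ∑ p ∈ D.primeFactors, Q p x := by
    intro x hx
    rw [hanti, Finset.sum_congr rfl fun p hp => (hGQ p hp).2.1 x hx, Finset.sum_neg_distrib]
    ring
  refine ⟨fun x => c x - ∑ p ∈ D.primeFactors, G p x, ?_, hfull, ?_, ?_, ?_⟩
  · intro t
    simp_rw [hanti, sub_mul, Finset.sum_mul, Finset.sum_sub_distrib]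
    rw [hT t, Finset.sum_comm, Finset.sum_congr rfl fun p hp => (hGQ p hp).2.2.2.2.1 t]
    simp
  · intro x hx
    have hne : addOrderOf x ≠ D := fun h => hx (hfull x h)
    rw [hrest x hne] at hx
    by_cases h1 : anti c x = 0
    · right
      rw [h1, zero_add] at hx
      obtain ⟨p, hp, hpx⟩ := Finset.exists_ne_zero_of_sum_ne_zero hx
      exact ⟨p, hp, (hGQ p hp).2.2.1 x hpx⟩
    · exact Or.inl h1
  · unfold normw
    refine SP_norm m D hD (anti c) _ D.primeFactors Q (fun p =>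
      ((if p ^ 2 ∣ D then 1 else 2 : ℤ) : ℚ) * ((∑ z, |N p z| : ℤ) : ℚ) /
        (Nat.card (Gam D p) : ℚ)) wo (fun n => by unfold wo; split_ifs <;> norm_num) hfull hrest
      (fun p hp => (hGQ p hp).2.2.1) (fun p hp => (hGQ p hp).2.2.2.1) ?_
    refine le_trans (le_of_eq ?_) hN4
    apply Finset.sum_congr rfl
    intro p _
    unfold kap
    push_cast
    ring
  · have h1 : ∀ p : ℕ, ∃ j : ℤ, p ∈ D.primeFactors → cls m (G p) = j • hh := by
      intro p
      by_cases hp : p ∈ D.primeFactors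
      · obtain ⟨j, hj⟩ := (hGQ p hp).2.2.2.2.2
        exact ⟨j, fun _ => hj⟩
      · exact ⟨0, fun h => absurd h hp⟩
    choose j hj using h1
    refine ⟨- ∑ p ∈ D.primeFactors, j p, ?_⟩
    have h2 : cls m (fun x => c x - ∑ p ∈ D.primeFactors, G p x) =
        cls m c - ∑ p ∈ D.primeFactors, cls m (G p) := by
      unfold Pool.Agent.helper76.LP.cls
      simp_rw [sub_smul, Finset.sum_smul, Finset.sum_sub_distrib]
      rw [Finset.sum_comm]
    rw [h2, Finset.sum_congr rfl fun p hp => hj p hp, ← Finset.sum_smul, neg_smul, sub_eq_add_neg]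

open Pool.Agent.helper34.DH in
/-- the step without control of the norms -/
theorem step3 (m : ℕ) [NeZero m] (D : ℕ) [NeZero D] (hD : D ∣ m) (c : ZMod m → ℤ)
    (hT : TateF (anti c)) (hdec : NDec D (fun z => anti c (emb D m (z : ZMod D)))) :
    ∃ c' : ZMod m → ℤ, TateF (anti c') ∧ (∀ x, addOrderOf x = D → anti c' x = 0) ∧
      (∀ x, addOrderOf x ≠ D → (∀ p ∈ D.primeFactors, addOrderOf x ≠ D / p) →
        anti c' x = anti c x) ∧ ∃ j : ℤ, cls m c' = cls m c + j • hh := by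
  classical
  obtain ⟨N, hN1, hN2, hN3⟩ := hdec
  have hD0 : 0 < D := Nat.pos_of_ne_zero (NeZero.ne D)
  have key : ∀ p : ℕ, ∃ g q : ZMod m → ℤ, p ∈ D.primeFactors →
      (∀ z : (ZMod D)ˣ, anti g (emb D m (z : ZMod D)) = N p z) ∧
      (∀ x, addOrderOf x ≠ D → anti g x = - q x) ∧ (∀ x, q x ≠ 0 → addOrderOf x = D / p) ∧
      TateF (anti g) ∧ ∃ j : ℤ, cls m g = j • hh := by
    intro p
    by_cases hp : p ∈ D.primeFactors
    · have hpp := Nat.prime_of_mem_primeFactors hp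
      have hpd := Nat.dvd_of_mem_primeFactors hp
      have : NeZero (D / p) := ⟨(Nat.div_pos (Nat.le_of_dvd hD0 hpd) hpp.pos).ne'⟩
      obtain ⟨g, q, h⟩ := SP_one m D (D / p) p hD (Nat.div_mul_cancel hpd) hpp (N p) (hN1 p hp)
        (hN3 p hp)
      exact ⟨g, q, fun _ => ⟨h.1, h.2.1, h.2.2.1, h.2.2.2.2⟩⟩
    · exact ⟨0, 0, fun h => absurd h hp⟩
  choose G Q hGQ using key
  have hanti : ∀ x, anti (fun x => c x - ∑ p ∈ D.primeFactors, G p x) x =
      anti c x - ∑ p ∈ D.primeFactors, anti (G p) x := SP_sum_anti _ _ _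
  have hfull : ∀ x, addOrderOf x = D →
      anti (fun x => c x - ∑ p ∈ D.primeFactors, G p x) x = 0 := by
    intro x hx
    obtain ⟨z, rfl⟩ := exists_emb x hx
    have h := hN2 z
    simp only at h
    rw [hanti, h, sub_eq_zero]
    exact Finset.sum_congr rfl fun p hp => ((hGQ p hp).1 z).symm
  have hrest : ∀ x, addOrderOf x ≠ D →
      anti (fun x => c x - ∑ p ∈ D.primeFactors, G p x) x =
        anti c x + ∑ p ∈ D.primeFactors, Q p x := by
    intro x hx
    rw [hanti, Finset.sum_congr rfl fun p hp => (hGQ p hp).2.1 x hx, Finset.sum_neg_distrib]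
    ring
  refine ⟨fun x => c x - ∑ p ∈ D.primeFactors, G p x, ?_, hfull, ?_, ?_⟩
  · intro t
    simp_rw [hanti, sub_mul, Finset.sum_mul, Finset.sum_sub_distrib]
    rw [hT t, Finset.sum_comm, Finset.sum_congr rfl fun p hp => (hGQ p hp).2.2.2.1 t]
    simp
  · intro x hx hxp
    rw [hrest x hx, Finset.sum_eq_zero, add_zero]
    intro p hp
    by_contra h
    exact hxp p hp ((hGQ p hp).2.2.1 x h)
  · have h1 : ∀ p : ℕ, ∃ j : ℤ, p ∈ D.primeFactors → cls m (G p) = j • hh := by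
      intro p
      by_cases hp : p ∈ D.primeFactors
      · obtain ⟨j, hj⟩ := (hGQ p hp).2.2.2.2
        exact ⟨j, fun _ => hj⟩
      · exact ⟨0, fun h => absurd h hp⟩
    choose j hj using h1
    refine ⟨- ∑ p ∈ D.primeFactors, j p, ?_⟩
    have h2 : cls m (fun x => c x - ∑ p ∈ D.primeFactors, G p x) =
        cls m c - ∑ p ∈ D.primeFactors, cls m (G p) := by
      unfold Pool.Agent.helper76.LP.cls
      simp_rw [sub_smul, Finset.sum_smul, Finset.sum_sub_distrib]
      rw [Finset.sum_comm]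
    rw [h2, Finset.sum_congr rfl fun p hp => hj p hp, ← Finset.sum_smul, neg_smul, sub_eq_add_neg]

end Pool.Agent.helper88.OF
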