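import Pool.Agent.helper88.OF.Defs
import Pool.Agent.helper30.QR.XB
import Pool.Agent.helper46.OF.SC

/-! # Project OF, module C2: small norms, antisymmetric functions -/

namespace Pool.Agent.helper88.OF

open Finset Pool.Agent.helper76.LP

theorem C2_five {D : ℕ} (h2 : Odd D) (h3 : 3 ∣ D) (h9 : ¬ 9 ∣ D) (p : ℕ)
    (hp : p ∈ (D / 3).primeFactors) : p.Prime ∧ p ∣ D ∧ 5 ≤ p ∧ 3 ∣ D / p ∧ p ≠ 6 := by
  have hpp := Nat.prime_of_mem_primeFactors hp
  have hpd := Nat.dvd_of_mem_primeFactors hp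
  have hpD : p ∣ D := hpd.trans (Nat.div_dvd_of_dvd h3)
  have h2p : 2 ≤ p := hpp.two_le
  have hodd : Odd p := h2.of_dvd_nat hpD
  have hp3 : p ≠ 3 := by
    rintro rfl
    apply h9
    obtain ⟨k, hk⟩ := h3
    rw [hk, Nat.mul_div_cancel_left _ (by norm_num)] at hpd
    obtain ⟨j, hj⟩ := hpd
    exact ⟨j, by rw [hk, hj]; ring⟩
  have hp2 : p ≠ 2 := by
    rintro rfl
    rcases hodd with ⟨k, hk⟩
    omega
  have hp4 : p ≠ 4 := by
    rintro rfl
    norm_num at hpp
  have hp6 : p ≠ 6 := by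
    rintro rfl
    norm_num at hpp
  refine ⟨hpp, hpD, by omega, ?_, hp6⟩
  have hcop : Nat.Coprime p 3 := (Nat.coprime_primes hpp Nat.prime_three).2 hp3
  exact (Nat.dvd_div_iff_mul_dvd hpD).2 (hcop.mul_dvd_of_dvd_of_dvd hpD h3)

theorem small_P (D : ℕ) [NeZero D] (h2 : Odd D) (h3 : 3 ∣ D) (h9 : ¬ 9 ∣ D) (h15 : D ≠ 15)
    (u : (ZMod D)ˣ) (hu : u ∈ Gam D 3) (hu1 : u ≠ 1) (P : (ZMod D)ˣ → ℤ)
    (hodd : ∀ x, P (-x) = - P x) (hP : ∀ x, P (u * x) = - P x)
    (hM : ∀ L : List ℕ, L.Nodup → L.toFinset = (D / 3).primeFactors → MDv (Gam D) L P)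
    (h8 : ∑ x, |P x| ≤ 8) (x : (ZMod D)ˣ) : P x = 0 := by
  classical
  by_contra hx
  have hD0 : 0 < D := Nat.pos_of_ne_zero (NeZero.ne D)
  obtain ⟨L, hL⟩ : ∃ L : List ℕ, L = (D / 3).primeFactors.toList := ⟨_, rfl⟩
  have hmem : ∀ p, p ∈ L ↔ p ∈ (D / 3).primeFactors := by
    intro p; rw [hL, Finset.mem_toList]
  have hnd : L.Nodup := by rw [hL]; exact Finset.nodup_toList _
  have htf : L.toFinset = (D / 3).primeFactors := by rw [hL, Finset.toList_toFinset]
  have hfac : ∀ p ∈ L, p.Prime ∧ p ∣ D ∧ 5 ≤ p ∧ 3 ∣ D / p ∧ p ≠ 6 := fun p hp =>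
    C2_five h2 h3 h9 p ((hmem p).1 hp)
  have h3L : 3 ∉ L := fun h => by
    have := (hfac 3 h).2.2.1
    omega
  have hI3 : Indep (Gam D) (3 :: L) := by
    apply indep_Gam D _ (List.nodup_cons.2 ⟨h3L, hnd⟩)
    intro p hp
    rcases List.mem_cons.1 hp with rfl | hp
    · exact Nat.mem_primeFactors.2 ⟨Nat.prime_three, h3, hD0.ne'⟩
    · exact Nat.mem_primeFactors.2 ⟨(hfac p hp).1, (hfac p hp).2.1, hD0.ne'⟩
  have hcard : ∀ p ∈ L, Nat.card (Gam D p) = if p ^ 2 ∣ D then p else p - 1 := fun p hp =>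
    card_Gam D p (hfac p hp).1 (hfac p hp).2.1
  have h4 : ∀ p ∈ L, 4 ≤ Nat.card (Gam D p) := by
    intro p hp
    have := (hfac p hp).2.2.1
    rw [hcard p hp]
    split_ifs <;> omega
  have h5 : ∀ p ∈ L, Nat.card (Gam D p) = 4 → p = 5 := by
    intro p hp h
    have := (hfac p hp).2.2.1
    rw [hcard p hp] at h
    split_ifs at h <;> omega
  have h5' : ∀ i ∈ L, ∀ j ∈ L, i ≠ j → Nat.card (Gam D i) = 4 → 5 ≤ Nat.card (Gam D j) := by
    intro i hi j hj hij h
    have hi5 := h5 i hi h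
    have hj4 := h4 j hj
    by_contra hlt
    have hj5 := h5 j hj (by omega)
    exact hij (hi5.trans hj5.symm)
  have huK : u ∉ Pl (Gam D) L := by
    intro h
    exact hu1 ((Subgroup.disjoint_def.1 hI3.1) hu h)
  have hmK : (-1 : (ZMod D)ˣ) ∉ Pl (Gam D) L :=
    XB_one_ne h3 le_rfl L fun p hp => ⟨(hfac p hp).2.1, (hfac p hp).2.2.2.1⟩
  have hsupp : (univ.filter (fun x => P x ≠ 0)).card ≤ 8 := by
    have h1 : ((univ.filter (fun x => P x ≠ 0)).card : ℤ) ≤ ∑ x, |P x| := by
      rw [card_eq_sum_ones, Nat.cast_sum]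
      refine le_trans (sum_le_sum (g := fun x => |P x|) ?_)
        (sum_le_sum_of_subset_of_nonneg (subset_univ _) fun x _ _ => abs_nonneg _)
      intro x hx
      rw [mem_filter] at hx
      simpa using Int.one_le_abs hx.2
    omega
  have hSl := XB_sl (Gam D) L P u huK hP x
  obtain ⟨i, hi, -, hw⟩ := single_coset (Gam D) L hnd hI3.2 h4 h5' P (hM L hnd htf) x hx
    (by omega)
  have hle : Gam D i ≤ Pl (Gam D) L := by
    clear * - hi
    induction L with
    | nil => simp at hi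
    | cons j L ih =>
      rcases List.mem_cons.1 hi with rfl | hi
      · exact le_sup_left
      · exact (ih hi).trans le_sup_right
  -- the three disjoint sets
  set A : Finset (ZMod D)ˣ := univ.filter (fun y => y * x⁻¹ ∈ Gam D i) with hA
  have hAc : A.card = Nat.card (Gam D i) := by
    rw [← Fintype.card_coe, ← Nat.card_eq_fintype_card]
    have hAm : ∀ y, y ∈ A ↔ y * x⁻¹ ∈ Gam D i := by
      intro y
      rw [hA, mem_filter]
      simp
    refine Nat.card_congr ⟨fun y => ⟨y.1 * x⁻¹, (hAm y.1).1 y.2⟩, fun w => ⟨w.1 * x, (hAm _).2 (by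
      rw [mul_inv_cancel_right]
      exact w.2)⟩, fun y => ?_, fun w => ?_⟩
    · apply Subtype.ext
      show y.1 * x⁻¹ * x = y.1
      rw [inv_mul_cancel_right]
    · apply Subtype.ext
      show w.1 * x * x⁻¹ = w.1
      rw [mul_inv_cancel_right]
  have hAP : ∀ y ∈ A, P y = P x := by
    intro y hy
    rw [hA, mem_filter] at hy
    have := (hw (y * x⁻¹) (hle hy.2)).1 hy.2
    rwa [inv_mul_cancel_right] at this
  have hAK : ∀ y ∈ A, y * x⁻¹ ∈ Pl (Gam D) L := by
    intro y hy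
    rw [hA, mem_filter] at hy
    exact hle hy.2
  have him : ∀ e : (ZMod D)ˣ, (A.image (fun y => e * y)).card = A.card := fun e =>
    card_image_of_injective _ (mul_right_injective e)
  have hdisj : ∀ e e' : (ZMod D)ˣ, e * e'⁻¹ ∉ Pl (Gam D) L →
      Disjoint (A.image (fun y => e * y)) (A.image (fun y => e' * y)) := by
    intro e e' hee
    rw [disjoint_left]
    intro z hz hz'
    obtain ⟨y, hy, rfl⟩ := mem_image.1 hz
    obtain ⟨y', hy', h⟩ := mem_image.1 hz'
    apply hee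
    have h1 := (Pl (Gam D) L).mul_mem (hAK y' hy') ((Pl (Gam D) L).inv_mem (hAK y hy))
    have h2 : y' * x⁻¹ * (y * x⁻¹)⁻¹ = e * e'⁻¹ := by
      have h3 : e' * y' = e * y := h
      have h4 : y' = e'⁻¹ * (e * y) := by rw [← h3, inv_mul_cancel_left]
      rw [h4]
      rw [mul_inv, inv_inv]
      calc e'⁻¹ * (e * y) * x⁻¹ * (y⁻¹ * x) = (e * e'⁻¹) * (y * y⁻¹) * (x⁻¹ * x) := by
            simp only [mul_assoc, mul_left_comm, mul_comm]
        _ = e * e'⁻¹ := by rw [mul_inv_cancel, inv_mul_cancel, mul_one, mul_one]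
    rwa [h2] at h1
  have hi4 := h4 i hi
  have hsq : ∀ v ∈ Gam D 3, v = 1 ∨ v = u := by
    intro v hv
    have h1 := card_Gam D 3 Nat.prime_three h3
    rw [if_neg (by norm_num; exact h9)] at h1
    by_contra hcon
    push Not at hcon
    have h6 : ({⟨1, one_mem _⟩, ⟨u, hu⟩, ⟨v, hv⟩} : Finset (Gam D 3)).card = 3 := by
      rw [card_insert_of_notMem, card_insert_of_notMem, card_singleton]
      · rw [mem_singleton]
        intro h
        exact hcon.2 (congrArg Subtype.val h).symm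
      · rw [mem_insert, mem_singleton, not_or]
        exact ⟨fun h => hu1 (congrArg Subtype.val h).symm, fun h =>
          hcon.1 (congrArg Subtype.val h).symm⟩
    have h7 := card_le_univ ({⟨1, one_mem _⟩, ⟨u, hu⟩, ⟨v, hv⟩} : Finset (Gam D 3))
    rw [h6, ← Nat.card_eq_fintype_card, h1] at h7
    omega
  have hinv : u⁻¹ = u := by
    rcases hsq u⁻¹ (inv_mem hu) with h | h
    · exact absurd (inv_eq_one.1 h) hu1
    · exact h
  have hmu : -u ∈ Pl (Gam D) L := by
    by_contra hcon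
    have d1 := hdisj 1 u (by rwa [one_mul, hinv])
    have d2 := hdisj 1 (-1) (by rwa [one_mul, inv_neg, inv_one])
    have d3 := hdisj u (-1) (by rwa [inv_neg, inv_one, mul_neg, mul_one])
    have hsub : (A.image (fun y => 1 * y) ∪ A.image (fun y => u * y)) ∪
        A.image (fun y => -1 * y) ⊆ univ.filter (fun x => P x ≠ 0) := by
      intro z hz
      rw [mem_filter]
      refine ⟨mem_univ _, ?_⟩
      rw [mem_union, mem_union, mem_image, mem_image, mem_image] at hz
      rcases hz with (⟨y, hy, rfl⟩ | ⟨y, hy, rfl⟩) | ⟨y, hy, rfl⟩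
      · rw [one_mul, hAP y hy]
        exact hx
      · rw [hP, hAP y hy]
        exact neg_ne_zero.2 hx
      · rw [neg_one_mul, hodd, hAP y hy]
        exact neg_ne_zero.2 hx
    have hc := card_le_card hsub
    rw [card_union_of_disjoint (disjoint_union_left.2 ⟨d2, d3⟩), card_union_of_disjoint d1,
      him, him, him, hAc] at hc
    omega
  have hmi : -u ∈ Gam D i := by
    by_contra hcon
    have h1 := (hw (-u) hmu).2 hcon
    rw [neg_mul, hodd, hP, neg_neg] at h1
    exact hx h1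
  have hi5 : i = 5 := by
    apply h5 i hi
    have d1 := hdisj 1 u (by rwa [one_mul, hinv])
    have hsub : A.image (fun y => 1 * y) ∪ A.image (fun y => u * y) ⊆
        univ.filter (fun x => P x ≠ 0) := by
      intro z hz
      rw [mem_filter]
      refine ⟨mem_univ _, ?_⟩
      rw [mem_union, mem_image, mem_image] at hz
      rcases hz with ⟨y, hy, rfl⟩ | ⟨y, hy, rfl⟩
      · rw [one_mul, hAP y hy]
        exact hx
      · rw [hP, hAP y hy]
        exact neg_ne_zero.2 hx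
    have hc := card_le_card hsub
    rw [card_union_of_disjoint d1, him, him, hAc] at hc
    omega
  subst hi5
  obtain ⟨k, hk⟩ : 15 ∣ D :=
    (show Nat.Coprime 3 5 by norm_num).mul_dvd_of_dvd_of_dvd h3 (hfac 5 hi).2.1
  have hkD : k ∣ D := ⟨15, by rw [hk]; ring⟩
  have e1 := Pl_Gam_cast D k hkD [3] (by
    intro p hp
    rw [List.mem_singleton] at hp
    subst hp
    refine ⟨h3, ?_⟩
    rw [hk, show 15 * k = 3 * (5 * k) by ring, Nat.mul_div_cancel_left _ (by norm_num)]
    exact ⟨5, by ring⟩) u (Subgroup.mem_sup_left hu)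
  have e2 := Pl_Gam_cast D k hkD [5] (by
    intro p hp
    rw [List.mem_singleton] at hp
    subst hp
    refine ⟨(hfac 5 hi).2.1, ?_⟩
    rw [hk, show 15 * k = 5 * (3 * k) by ring, Nat.mul_div_cancel_left _ (by norm_num)]
    exact ⟨3, by ring⟩) (-u) (Subgroup.mem_sup_left hmi)
  rw [Units.val_neg, map_neg, e1] at e2
  have e3 : ((2 : ℕ) : ZMod k) = 0 := by
    push_cast
    linear_combination -e2
  rw [ZMod.natCast_eq_zero_iff] at e3
  have hk2 := Nat.le_of_dvd (by norm_num) e3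
  rcases h2 with ⟨j, hj⟩
  have hk0 : k ≠ 0 := by
    rintro rfl
    omega
  have hk1 : k ≠ 2 := by
    rintro rfl
    omega
  apply h15
  rw [hk, show k = 1 by omega]

end Pool.Agent.helper88.OF
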