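import Pool.Agent.helper88.OF.Defs
import Pool.Agent.helper97.OF.MV

/-! # Project OF, module NM: normalisation -/

namespace Pool.Agent.helper88.OF

open Finset Pool.Agent.helper76.LP

/-- the modifying function: `s` at `z` and `w`, `-s` at `-z` and `-w` -/
def NM_N {D : ℕ} (z w : (ZMod D)ˣ) (s : ℤ) (y : (ZMod D)ˣ) : ℤ :=
  if y = z ∨ y = w then s else if y = -z ∨ y = -w then -s else 0

theorem NM_ne_neg (D : ℕ) (h2 : Odd D) (h1 : 1 < D) (z : (ZMod D)ˣ) : z ≠ -z := by
  intro h
  have h3 : ((2 : ℕ) : ZMod D) * (z : ZMod D) = 0 := by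
    have h4 := congrArg (fun w : (ZMod D)ˣ => (w : ZMod D)) h
    simp only [Units.val_neg] at h4
    push_cast
    linear_combination h4
  rw [Units.mul_left_eq_zero, ZMod.natCast_eq_zero_iff] at h3
  rcases h2 with ⟨k, hk⟩
  have := Nat.le_of_dvd (by norm_num) h3
  omega

theorem NM_sum {D : ℕ} [NeZero D] (z w : (ZMod D)ˣ) (s : ℤ) (hs : |s| = 1) (h1 : z ≠ w)
    (h2 : z ≠ -z) (h3 : w ≠ -w) (h4 : z ≠ -w) : ∑ y, |NM_N z w s y| = 4 := by
  have e1 : ∀ y, |NM_N z w s y| = if y ∈ ({z, w, -z, -w} : Finset (ZMod D)ˣ) then 1 else 0 := by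
    intro y
    unfold NM_N
    simp only [mem_insert, mem_singleton]
    by_cases ha : y = z ∨ y = w
    · rw [if_pos ha, if_pos (by tauto), hs]
    · rw [if_neg ha]
      by_cases hb : y = -z ∨ y = -w
      · rw [if_pos hb, if_pos (by tauto), abs_neg, hs]
      · rw [if_neg hb, if_neg (by tauto), abs_zero]
  rw [Finset.sum_congr rfl (fun y _ => e1 y), Finset.sum_ite_mem, Finset.univ_inter,
    Finset.sum_const, nsmul_eq_mul, mul_one]
  have h5 : w ≠ -z := fun h => h4 (by rw [h, neg_neg])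
  have h6 : -z ≠ -w := fun h => h1 (neg_injective h)
  rw [Finset.card_insert_of_notMem, Finset.card_insert_of_notMem, Finset.card_insert_of_notMem,
    Finset.card_singleton]
  · norm_num
  · simpa using h6
  · simp only [mem_insert, mem_singleton, not_or]
    exact ⟨h5, h3⟩
  · simp only [mem_insert, mem_singleton, not_or]
    exact ⟨h1, h2, h4⟩

theorem NM_odd {D : ℕ} (z w : (ZMod D)ˣ) (s : ℤ) 
    (h2 : z ≠ -z) (h3 : w ≠ -w) (h4 : z ≠ -w) (y : (ZMod D)ˣ) :
    NM_N z w s (-y) = - NM_N z w s y := by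
  have h5 : w ≠ -z := fun h => h4 (by rw [h, neg_neg])
  unfold NM_N
  have e1 : (-y = z ∨ -y = w) ↔ (y = -z ∨ y = -w) := by
    rw [neg_eq_iff_eq_neg, neg_eq_iff_eq_neg]
  have e2 : (-y = -z ∨ -y = -w) ↔ (y = z ∨ y = w) := by
    rw [neg_inj, neg_inj]
  simp only [e1, e2]
  by_cases ha : y = z ∨ y = w
  · have hb : ¬ (y = -z ∨ y = -w) := by
      rintro (hb | hb) <;> rcases ha with ha | ha
      · exact h2 (ha.symm.trans hb)
      · exact h5 (ha.symm.trans hb)
      · exact h4 (ha.symm.trans hb)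
      · exact h3 (ha.symm.trans hb)
    rw [if_neg hb, if_pos ha, if_pos ha]
  · by_cases hb : y = -z ∨ y = -w
    · rw [if_pos hb, if_neg ha, if_pos hb, neg_neg]
    · rw [if_neg hb, if_neg ha, if_neg ha, if_neg hb, neg_zero]

/-- subtraction of the modifying function decreases the absolute value -/
theorem NM_abs {D : ℕ} (z w : (ZMod D)ˣ) (s : ℤ) (hs : s = 1 ∨ s = -1) (f : (ZMod D)ˣ → ℤ)
    (hodd : ∀ y, f (-y) = - f y) (hz : 1 ≤ s * f z) (hw : 1 ≤ s * f w) (y : (ZMod D)ˣ) :
    |f y - NM_N z w s y| = |f y| - |NM_N z w s y| := by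
  have key : ∀ a b : ℤ, (b = 1 ∨ b = -1) → 1 ≤ b * a → |a - b| = |a| - |b| := by
    intro a b hb hab
    rcases hb with rfl | rfl
    · rw [abs_of_nonneg (by linarith : (0 : ℤ) ≤ a - 1), abs_of_nonneg (by linarith : (0 : ℤ) ≤ a)]
      simp
    · rw [abs_of_nonpos (by linarith : a - -1 ≤ 0), abs_of_nonpos (by linarith : a ≤ 0)]
      simp
      ring
  unfold NM_N
  by_cases ha : y = z ∨ y = w
  · rw [if_pos ha]
    rcases ha with rfl | rfl
    · exact key _ _ hs hz
    · exact key _ _ hs hw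
  · rw [if_neg ha]
    by_cases hb : y = -z ∨ y = -w
    · rw [if_pos hb]
      have hs' : -s = 1 ∨ -s = -1 := by omega
      rcases hb with rfl | rfl
      · refine key _ _ hs' ?_
        rw [hodd]
        linarith
      · refine key _ _ hs' ?_
        rw [hodd]
        linarith
    · rw [if_neg hb]
      simp

/-- sum of the absolute values at the points of order divisible by 3 -/
noncomputable def NM_T {m : ℕ} [NeZero m] (F : ZMod m → ℤ) : ℤ :=
  ∑ x, if 3 ∣ addOrderOf x then |F x| else 0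

theorem NM_normw {m : ℕ} [NeZero m] (h2 : Odd m) (F : ZMod m → ℤ) : normw F = ∑ x, |F x| := by
  unfold normw
  refine Finset.sum_congr rfl fun x _ => ?_
  have h1 : Odd (addOrderOf x) := h2.of_dvd_nat (addOrderOf_dvd' x)
  have h3 : wo (addOrderOf x) = 1 := by
    unfold wo
    rw [if_neg]
    obtain ⟨k, hk⟩ := h1
    omega
  rw [h3, one_mul]

theorem NM_Gam (D : ℕ) [NeZero D] (h3 : 3 ∣ D) (h9 : ¬ 9 ∣ D) (u : (ZMod D)ˣ) (hu : u ∈ Gam D 3)
    (hu1 : u ≠ 1) (w : (ZMod D)ˣ) (hw : w ∈ Gam D 3) : w = 1 ∨ w = u := by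
  have h1 := card_Gam D 3 Nat.prime_three h3
  rw [if_neg (by norm_num; exact h9)] at h1
  obtain ⟨a, b, hab, huniv⟩ := Nat.card_eq_two_iff.1 h1
  have h4 : ∀ x : Gam D 3, x = a ∨ x = b := by
    intro x
    have : x ∈ ({a, b} : Set (Gam D 3)) := by rw [huniv]; trivial
    simpa using this
  have e1 := h4 ⟨1, one_mem _⟩
  have e2 := h4 ⟨u, hu⟩
  have e3 := h4 ⟨w, hw⟩
  have hne : (⟨u, hu⟩ : Gam D 3) ≠ ⟨1, one_mem _⟩ := fun h => hu1 (congrArg Subtype.val h)
  have e4 : (⟨w, hw⟩ : Gam D 3) = ⟨1, one_mem _⟩ ∨ (⟨w, hw⟩ : Gam D 3) = ⟨u, hu⟩ := by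
    rcases e1 with e1 | e1 <;> rcases e2 with e2 | e2 <;> rcases e3 with e3 | e3
    · exact absurd (e2.trans e1.symm) hne
    · exact absurd (e2.trans e1.symm) hne
    · exact Or.inl (e3.trans e1.symm)
    · exact Or.inr (e3.trans e2.symm)
    · exact Or.inr (e3.trans e2.symm)
    · exact Or.inl (e3.trans e1.symm)
    · exact absurd (e2.trans e1.symm) hne
    · exact absurd (e2.trans e1.symm) hne
  rcases e4 with e4 | e4
  · exact Or.inl (congrArg Subtype.val e4)
  · exact Or.inr (congrArg Subtype.val e4)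

open Pool.Agent.helper34.DH in
/-- one modification -/
theorem NM_one (m : ℕ) [NeZero m] (h2 : Odd m) (u : (ZMod m)ˣ) (hu : IsTw m u)
    (c : ZMod m → ℤ) (hT : TateF (anti c)) (hN9 : No9 (anti c)) (hN : ¬ Nrm u (anti c)) :
    ∃ c' : ZMod m → ℤ, TateF (anti c') ∧ No9 (anti c') ∧ NM_T (anti c') < NM_T (anti c) ∧
      (∀ x, anti c' x ≠ 0 → anti c x ≠ 0 ∨
        ∃ y, anti c y ≠ 0 ∧ addOrderOf y = 3 * addOrderOf x) ∧
      normw (anti c') ≤ normw (anti c) ∧ ∃ j : ℤ, cls m c' = cls m c + j • hh := by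
  unfold Nrm at hN
  push Not at hN
  obtain ⟨x, hx3, hx⟩ := hN
  set D := addOrderOf x with hDdef
  have hD : D ∣ m := addOrderOf_dvd' x
  have hD0 : 0 < D := addOrderOf_pos x
  have : NeZero D := ⟨hD0.ne'⟩
  have hFx : anti c x ≠ 0 := by
    intro h
    rw [h, zero_mul] at hx
    exact lt_irrefl _ hx
  have hD9 : ¬ 9 ∣ D := fun h => hFx (hN9 x h)
  have hDodd : Odd D := h2.of_dvd_nat hD
  have hD1 : 1 < D := by
    have := Nat.le_of_dvd hD0 hx3
    omega
  obtain ⟨z, hz⟩ := exists_emb x hDdef.symm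
  obtain ⟨hu1, _, hu3⟩ := hu
  obtain ⟨hG, hne⟩ := hu3 D hD hx3 hD9
  set v := ZMod.unitsMap hD u with hv
  have hvv : v * v = 1 := by rw [hv, ← map_mul, hu1, map_one]
  set f : (ZMod D)ˣ → ℤ := fun y => anti c (emb D m (y : ZMod D)) with hf
  have hodd : ∀ y, f (-y) = - f y := by
    intro y
    simp only [hf]
    rw [Units.val_neg, emb_neg hD]
    unfold anti
    rw [neg_neg]
    ring
  have hfz : f z = anti c x := by simp only [hf]; rw [hz]
  have hfw : f (v * z) = anti c ((u : ZMod m) * x) := by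
    simp only [hf]
    rw [← hz, mul_emb hD, Units.val_mul]
    rfl
  rw [← hfz, ← hfw] at hx
  have h1 : z ≠ v * z := by
    intro h
    exact hne (mul_eq_right.1 h.symm)
  have h3 : z ≠ -z := NM_ne_neg D hDodd hD1 z
  have h4 : v * z ≠ -(v * z) := NM_ne_neg D hDodd hD1 _
  have h5 : z ≠ -(v * z) := by
    intro h
    have h6 : v * z = -z := by rw [eq_comm, neg_eq_iff_eq_neg]; exact h
    rw [h6, hodd] at hx
    nlinarith [mul_self_nonneg (f z)]
  -- the sign
  obtain ⟨s, hs, hsz, hsw⟩ : ∃ s : ℤ, (s = 1 ∨ s = -1) ∧ 1 ≤ s * f z ∧ 1 ≤ s * f (v * z) := by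
    rcases lt_trichotomy (f z) 0 with h | h | h
    · have : f (v * z) < 0 := by
        by_contra h'
        push Not at h'
        nlinarith
      exact ⟨-1, Or.inr rfl, by linarith, by linarith⟩
    · rw [h, zero_mul] at hx
      exact absurd hx (lt_irrefl _)
    · have : 0 < f (v * z) := by
        by_contra h'
        push Not at h'
        nlinarith
      exact ⟨1, Or.inl rfl, by linarith, by linarith⟩
  have hsabs : |s| = 1 := by rcases hs with rfl | rfl <;> norm_num
  set N := NM_N z (v * z) s with hNdef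
  have hNsum : ∑ y, |N y| = 4 := NM_sum z (v * z) s hsabs h1 h3 h4 h5
  have hNodd : ∀ y, N (-y) = - N y := NM_odd z (v * z) s h3 h4 h5
  have hNinv : ∀ w ∈ Gam D 3, ∀ y, N (w * y) = N y := by
    intro w hw y
    rcases NM_Gam D hx3 hD9 v hG hne w hw with rfl | rfl
    · rw [one_mul]
    · rw [hNdef]
      unfold NM_N
      have e0 : ∀ a b : (ZMod D)ˣ, v * a = b ↔ a = v * b := by
        intro a b
        constructor
        · rintro rfl
          rw [← mul_assoc, hvv, one_mul]
        · rintro rfl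
          rw [← mul_assoc, hvv, one_mul]
      have e1 : (v * y = z ∨ v * y = v * z) ↔ (y = z ∨ y = v * z) := by
        rw [e0, mul_right_inj]
        tauto
      have e2 : (v * y = -z ∨ v * y = -(v * z)) ↔ (y = -z ∨ y = -(v * z)) := by
        rw [e0, e0, mul_neg, mul_neg, ← mul_assoc, hvv, one_mul]
        tauto
      simp only [e1, e2]
  have hNf : ∀ y, |f y - N y| = |f y| - |N y| := NM_abs z (v * z) s hs f hodd hsz hsw
  set e := D / 3 with he
  have he3 : e * 3 = D := Nat.div_mul_cancel hx3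
  have he0 : 0 < e := by omega
  have : NeZero e := ⟨he0.ne'⟩
  have hem : e ∣ m := (Dvd.intro 3 he3).trans hD
  have he3' : ¬ 3 ∣ e := by
    intro h
    apply hD9
    obtain ⟨k, hk⟩ := h
    exact ⟨k, by omega⟩
  have heD : e ≠ D := by omega
  obtain ⟨g, ν, _, _, hν3, hanti, hgT, j, hj⟩ :=
    move1 m D e 3 hD he3 Nat.prime_three N hNinv hNodd
  have hcard : Nat.card (Gam D 3) = 2 := by
    rw [card_Gam D 3 Nat.prime_three hx3, if_neg (by norm_num; exact hD9)]
  rw [hcard, hNsum] at hν3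
  have hνs : ∑ y, |ν y| = 2 := by push_cast at hν3; linarith
  have hanti' : ∀ x, anti (fun x => c x - g x) x =
      anti c x - ext D m N x + ext e m (Rop 3 e ν) x := by
    intro x
    have e1 : anti (fun x => c x - g x) x = anti c x - anti g x := by unfold anti; ring
    rw [e1, hanti]
    ring
  -- values at the points of order `D` and elsewhere
  have hval1 : ∀ x, addOrderOf x = D → |anti (fun x => c x - g x) x| =
      |anti c x| - |ext D m N x| := by
    intro x hx
    obtain ⟨y, rfl⟩ := exists_emb x hx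
    rw [hanti', ext_of_order_ne hem _ _ (by rw [hx]; exact heD.symm), add_zero, ext_emb hD]
    exact hNf y
  have hval2 : ∀ x, addOrderOf x ≠ D → anti (fun x => c x - g x) x =
      anti c x + ext e m (Rop 3 e ν) x := by
    intro x hx
    rw [hanti', ext_of_order_ne hD _ _ hx, sub_zero]
  have hval3 : ∀ x, addOrderOf x ≠ D → addOrderOf x ≠ e → anti (fun x => c x - g x) x =
      anti c x := by
    intro x hx hx'
    rw [hval2 x hx, ext_of_order_ne hem _ _ hx', add_zero]
  refine ⟨fun x => c x - g x, ?_, ?_, ?_, ?_, ?_, ?_⟩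
  · intro t
    have e1 : ∀ x : ZMod m, anti (fun x => c x - g x) x * saw m ((t : ZMod m) * x) =
        anti c x * saw m ((t : ZMod m) * x) - anti g x * saw m ((t : ZMod m) * x) := by
      intro x
      unfold anti
      ring
    rw [Finset.sum_congr rfl fun x _ => e1 x, Finset.sum_sub_distrib, hT t, hgT t, sub_zero]
  · intro x hx
    rw [hval3 x (fun h => hD9 (h ▸ hx)) (fun h => he3' (dvd_trans (by norm_num) (h ▸ hx)))]
    exact hN9 x hx
  · have e1 : NM_T (anti fun x => c x - g x) = NM_T (anti c) - ∑ x, |ext D m N x| := by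
      unfold NM_T
      rw [← Finset.sum_sub_distrib]
      refine Finset.sum_congr rfl fun x _ => ?_
      by_cases h : addOrderOf x = D
      · rw [if_pos (h ▸ hx3), if_pos (h ▸ hx3), hval1 x h]
      · rw [ext_of_order_ne hD _ _ h, abs_zero, sub_zero]
        by_cases h3' : 3 ∣ addOrderOf x
        · rw [if_pos h3', if_pos h3', hval3 x h (fun h' => he3' (h' ▸ h3'))]
        · rw [if_neg h3', if_neg h3']
    rw [e1, sum_ext_abs hD, hNsum]
    linarith
  · intro y hy
    by_cases h : anti c y = 0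
    · right
      by_cases h' : addOrderOf y = D
      · exfalso
        have h6 := hval1 y h'
        rw [h, abs_zero] at h6
        have h7 := abs_nonneg (ext D m N y)
        have h8 := abs_pos.2 hy
        linarith
      · rw [hval2 y h', h, zero_add] at hy
        have h9 : addOrderOf y = e := by
          by_contra h9
          exact hy (ext_of_order_ne hem _ _ h9)
        exact ⟨x, hFx, by rw [h9, ← hDdef]; omega⟩
    · exact Or.inl h
  · rw [NM_normw h2, NM_normw h2]
    have e1 : ∀ x, |anti (fun x => c x - g x) x| ≤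
        |anti c x| - |ext D m N x| + |ext e m (Rop 3 e ν) x| := by
      intro x
      by_cases h : addOrderOf x = D
      · rw [hval1 x h]
        have := abs_nonneg (ext e m (Rop 3 e ν) x)
        linarith
      · rw [hval2 x h, ext_of_order_ne hD _ _ h, abs_zero, sub_zero]
        exact abs_add_le _ _
    have e2 := Finset.sum_le_sum (fun x (_ : x ∈ univ) => e1 x)
    rw [Finset.sum_add_distrib, Finset.sum_sub_distrib, sum_ext_abs hD, sum_ext_abs hem,
      hNsum] at e2
    have e3 := SP_Rop_le 3 e ν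
    rw [hνs] at e3
    linarith
  · refine ⟨-j, ?_⟩
    have e1 : cls m (fun x => c x - g x) = cls m c - cls m g := by
      unfold Pool.Agent.helper76.LP.cls
      simp_rw [sub_smul, Finset.sum_sub_distrib]
    rw [e1, hj, neg_smul, sub_eq_add_neg]

open Pool.Agent.helper34.DH in
theorem normalise (m : ℕ) [NeZero m] (h2 : Odd m) (u : (ZMod m)ˣ) (hu : IsTw m u)
    (c : ZMod m → ℤ) (hT : TateF (anti c)) (hN9 : No9 (anti c)) :
    ∃ c' : ZMod m → ℤ, TateF (anti c') ∧ No9 (anti c') ∧ Nrm u (anti c') ∧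
      (∀ x, anti c' x ≠ 0 → anti c x ≠ 0 ∨
        ∃ y, anti c y ≠ 0 ∧ addOrderOf y = 3 * addOrderOf x) ∧
      normw (anti c') ≤ normw (anti c) ∧ ∃ j : ℤ, cls m c' = cls m c + j • hh := by
  have hT0 : ∀ F : ZMod m → ℤ, 0 ≤ NM_T F := by
    intro F
    unfold NM_T
    refine Finset.sum_nonneg fun x _ => ?_
    split_ifs
    · exact abs_nonneg _
    · exact le_rfl
  obtain ⟨n, hn⟩ : ∃ n : ℕ, NM_T (anti c) < n := ⟨(NM_T (anti c)).toNat + 1, by
    have := Int.self_le_toNat (NM_T (anti c))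
    push_cast
    linarith⟩
  induction n generalizing c with
  | zero =>
    have := hT0 (anti c)
    push_cast at hn
    linarith
  | succ n ih =>
    by_cases hN : Nrm u (anti c)
    · exact ⟨c, hT, hN9, hN, fun x hx => Or.inl hx, le_rfl, 0, by simp⟩
    · obtain ⟨c', h1, h3, h4, h5, h6, j, hj⟩ := NM_one m h2 u hu c hT hN9 hN
      obtain ⟨c'', g1, g2, g3, g4, g5, j', hj'⟩ := ih c' h1 h3 (by push_cast at hn; linarith)
      refine ⟨c'', g1, g2, g3, ?_, g5.trans h6, j + j', ?_⟩
      · intro x hx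
        rcases g4 x hx with h | ⟨y, hy, hxy⟩
        · exact h5 x h
        · rcases h5 y hy with h | ⟨y', hy', hyy'⟩
          · exact Or.inr ⟨y, h, hxy⟩
          · exact absurd (hN9 y' ⟨addOrderOf x, by omega⟩) hy'
      · rw [hj', hj, add_smul, add_assoc]

end Pool.Agent.helper88.OF
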