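import Pool.Agent.helper86.OF.SpecM

/-!
Project of (MP_c62920_co), module MAC: the machine.
-/

open scoped BigOperators

namespace Pool.Agent.OF

noncomputable section

open Classical

/-- The matching of the outer edges of one colour is small. -/
lemma MAC_small {V : Type} [Fintype V] (G : SimpleGraph V) (D : ℕ) (X : Finset V)
    (c : Sym2 V → ℕ) (T : V → Finset ℕ) (U : ℕ) (κ : ℝ) (hT : Tmpl G D X c T U κ) (i : ℕ)
    (hi : i < D) (m : V → V) (hm : MatIn (outG G X) m)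
    (hc : ∀ v w, (outG G X).Adj v w → (m v = w ↔ c s(v, w) = i))
    (hh : ∀ v, m v ≠ v ↔ has (outG G X) c v i) :
    (∀ v ∈ X, m v ≠ v → v ∈ Hs G X c T i ∧ m v ∉ X) ∧
      (Finset.univ.filter fun v => m v ≠ v).card ≤ 4 * U := by
  have h1 : ∀ v ∈ X, m v ≠ v → v ∈ Hs G X c T i ∧ m v ∉ X := by
    intro v hv hne
    refine ⟨?_, fun h => (hm.2 v hne).2 ⟨hv, h⟩⟩
    unfold Hs
    rw [Finset.mem_filter]
    exact ⟨hv, Or.inr ((hh v).1 hne)⟩
  refine ⟨h1, ?_⟩
  set P := Finset.univ.filter fun v => m v ≠ v with hP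
  set Y := Finset.univ.filter fun y => y ∉ X ∧ ∃ w, w ∉ X ∧ G.Adj y w ∧ c s(y, w) = i with hY
  have hsub : P ⊆ (Hs G X c T i ∪ (Hs G X c T i).image m) ∪ Y := by
    intro v hv
    rw [hP, Finset.mem_filter] at hv
    have hne := hv.2
    have hmm := hm.1 v
    by_cases hvX : v ∈ X
    · exact Finset.mem_union_left _ (Finset.mem_union_left _ (h1 v hvX hne).1)
    · by_cases hmX : m v ∈ X
      · apply Finset.mem_union_left
        apply Finset.mem_union_right
        rw [Finset.mem_image]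
        refine ⟨m v, (h1 (m v) hmX ?_).1, hmm⟩
        rw [hmm]
        exact fun h => hne h.symm
      · apply Finset.mem_union_right
        rw [hY, Finset.mem_filter]
        have h2 := hm.2 v hne
        exact ⟨Finset.mem_univ _, hvX, m v, hmX, h2.1, (hc v (m v) h2).1 rfl⟩
  have h2 := Finset.card_le_card hsub
  have h3 := Finset.card_union_le (Hs G X c T i ∪ (Hs G X c T i).image m) Y
  have h4 := Finset.card_union_le (Hs G X c T i) ((Hs G X c T i).image m)
  have h5 : ((Hs G X c T i).image m).card ≤ (Hs G X c T i).card := Finset.card_image_le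
  have h6 := hT.bdd i hi
  have h7 := hT.byy i hi
  rw [← hY] at h7
  omega

lemma MAC_split {V : Type} [Fintype V] (G : SimpleGraph V) (X : Finset V) (v : V) :
    dgs G X v + dgs G Xᶜ v = dg G v := by
  unfold dg dgs
  simp only [Finset.card_filter]
  exact Finset.sum_add_sum_compl X _

lemma MAC_splitA {V : Type} [Fintype V] (G : SimpleGraph V) (X A : Finset V) (v : V) :
    dgs G (X ∩ A) v + dgs G (X \ A) v = dgs G X v := by
  unfold dgs
  rw [← Finset.card_union_of_disjoint]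
  · congr 1
    ext w
    simp only [Finset.mem_union, Finset.mem_filter, Finset.mem_inter, Finset.mem_sdiff]
    tauto
  · rw [Finset.disjoint_left]
    intro w h1 h2
    rw [Finset.mem_filter, Finset.mem_inter] at h1
    rw [Finset.mem_filter, Finset.mem_sdiff] at h2
    exact h2.1.2 h1.1.2

/-- the number of colours at a vertex of `X` -/
lemma MAC_count {V : Type} [Fintype V] (hS : SCN_stmt) (G : SimpleGraph V) (D : ℕ)
    (X : Finset V) (c : Sym2 V → ℕ) (T : V → Finset ℕ) (U : ℕ) (κ : ℝ)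
    (hT : Tmpl G D X c T U κ) (x : V) (hx : x ∈ X) :
    dgs G Xᶜ x + (T x).card = ((Finset.range D).filter fun i => x ∈ Hs G X c T i).card := by
  have h1 := hS V (outG G X) D c hT.pec x
  have h2 : dg (outG G X) x = dgs G Xᶜ x := by
    unfold dg dgs
    congr 1
    ext w
    simp only [Finset.mem_filter, Finset.mem_univ, true_and, Finset.mem_compl, outG]
    constructor
    · rintro ⟨h3, h4⟩
      exact ⟨fun h => h4 ⟨hx, h⟩, h3⟩
    · rintro ⟨h3, h4⟩
      exact ⟨h4, fun h => h3 h.2⟩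
  obtain ⟨h3, -, h4⟩ := hT.tok x hx
  have h5 : ((Finset.range D).filter fun i => x ∈ Hs G X c T i) =
      T x ∪ (Finset.range D).filter fun i => has (outG G X) c x i := by
    ext i
    rw [Finset.mem_filter, Finset.mem_union, Finset.mem_filter, Hs, Finset.mem_filter]
    constructor
    · rintro ⟨h6, -, h7 | h7⟩
      · exact Or.inl h7
      · exact Or.inr ⟨h6, h7⟩
    · rintro (h6 | h6)
      · exact ⟨h3 h6, hx, Or.inl h6⟩
      · exact ⟨h6.1, hx, Or.inr h6.2⟩
  rw [h5, Finset.card_union_of_disjoint, h1, h2, add_comm]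
  rw [Finset.disjoint_left]
  intro i hi hi'
  exact h4 i hi (Finset.mem_filter.1 hi').2

lemma MAC_total {V : Type} [Fintype V] (hS : SCN_stmt) (G : SimpleGraph V) (D : ℕ)
    (X : Finset V) (c : Sym2 V → ℕ) (T : V → Finset ℕ) (U : ℕ) (κ : ℝ)
    (hT : Tmpl G D X c T U κ) : ∑ x ∈ X, (dgs G Xᶜ x + (T x).card) ≤ U * D := by
  have h1 : ∑ x ∈ X, (dgs G Xᶜ x + (T x).card) =
      ∑ x ∈ X, ∑ i ∈ Finset.range D, if x ∈ Hs G X c T i then 1 else 0 := by
    refine Finset.sum_congr rfl fun x hx => ?_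
    rw [MAC_count hS G D X c T U κ hT x hx, Finset.card_filter]
  rw [h1, Finset.sum_comm]
  calc ∑ i ∈ Finset.range D, ∑ x ∈ X, (if x ∈ Hs G X c T i then 1 else 0)
      ≤ ∑ i ∈ Finset.range D, U := by
        refine Finset.sum_le_sum fun i hi => ?_
        rw [← Finset.card_filter]
        refine (Finset.card_le_card ?_).trans (hT.bdd i (Finset.mem_range.1 hi))
        intro x hx
        exact (Finset.mem_filter.1 hx).2
    _ = U * D := by rw [Finset.sum_const, Finset.card_range, smul_eq_mul, mul_comm]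

/-- enumeration of the colours not in `F` -/
lemma MAC_enum (D : ℕ) (F : Finset ℕ) (hF : F ⊆ Finset.range D) :
    ∃ (e : ℕ → ℕ) (q : ℕ), q + F.card = D ∧ (∀ i < q, e i < D ∧ e i ∉ F) ∧
      (∀ i < q, ∀ j < q, e i = e j → i = j) ∧ ∀ k < D, k ∉ F → ∃ i < q, e i = k := by
  set R := Finset.range D \ F with hR
  have hc : R.card + F.card = D := by
    rw [hR, Finset.card_sdiff_add_card_eq_card hF, Finset.card_range]
  have hmem : ∀ k, k ∈ R ↔ k < D ∧ k ∉ F := by
    intro k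
    rw [hR, Finset.mem_sdiff, Finset.mem_range]
  clear_value R
  set ψ := R.equivFin with hψ
  refine ⟨fun i => if h : i < R.card then (ψ.symm ⟨i, h⟩ : ℕ) else 0, R.card, hc, ?_, ?_, ?_⟩
  · intro i hi
    simp only [dif_pos hi]
    exact (hmem _).1 (ψ.symm ⟨i, hi⟩).2
  · intro i hi j hj h
    simp only [dif_pos hi, dif_pos hj] at h
    have h1 := ψ.symm.injective (Subtype.ext h)
    exact congrArg Fin.val h1
  · intro k hk hkF
    have h1 : k ∈ R := (hmem k).2 ⟨hk, hkF⟩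
    refine ⟨ψ ⟨k, h1⟩, (ψ ⟨k, h1⟩).2, ?_⟩
    have h2 : ((ψ ⟨k, h1⟩ : Fin R.card) : ℕ) < R.card := (ψ ⟨k, h1⟩).2
    simp only [dif_pos h2]
    have h3 : (⟨((ψ ⟨k, h1⟩ : Fin R.card) : ℕ), h2⟩ : Fin R.card) = ψ ⟨k, h1⟩ := rfl
    rw [h3, Equiv.symm_apply_apply]

theorem MAC (hP : PTN_stmt) (hS : SCN_stmt) (hPA : PAA_stmt) (hCO : COR_stmt) (hMD : MDA_stmt)
    (hM1 : MA1_stmt) (hM2 : MA2_stmt) : MAC_stmt := by
  intro ε U hε
  obtain ⟨ζ₀, hζ₀, hPA⟩ := hPA U
  set ζ := min ζ₀ (ε / 10) / 2 with hζd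
  have hζ : 0 < ζ := by
    rw [hζd]
    have : 0 < min ζ₀ (ε / 10) := lt_min hζ₀ (by positivity)
    positivity
  have hζ1 : 2 * ζ ≤ ζ₀ := by
    rw [hζd]
    have := min_le_left ζ₀ (ε / 10)
    linarith
  have hζ2 : 2 * ζ ≤ ε / 10 := by
    rw [hζd]
    have := min_le_right ζ₀ (ε / 10)
    linarith
  obtain ⟨θ, hθ, hCO⟩ := hCO ε ζ hε hζ
  set q0 := ⌈2 * U / θ⌉₊ + 1 with hq0
  obtain ⟨η, N1, hη, hM1⟩ := hM1 ε ζ θ U q0 hε hζ hθ
  obtain ⟨N2, hCO⟩ := hCO (U + q0 + 1)
  obtain ⟨N3, hPA⟩ := hPA (min η (1 / 4)) (lt_min hη (by norm_num))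
  obtain ⟨N4, hMD⟩ := hMD ε U q0 hε
  refine ⟨max (max N1 N2) (max (max N3 N4) (⌈1 / ζ⌉₊ + 1)), ?_⟩
  intro V _ G D X c T hN hD hDN hT
  have hN1 : N1 ≤ Fintype.card V := by omega
  have hN2 : N2 ≤ Fintype.card V := by omega
  have hN3 : N3 ≤ Fintype.card V := by omega
  have hN4 : N4 ≤ Fintype.card V := by omega
  have hN5 : ⌈1 / ζ⌉₊ + 1 ≤ Fintype.card V := by omega
  have hζN : 1 ≤ ζ * Fintype.card V := by
    have h1 := Nat.le_ceil (1 / ζ)
    have h2 : ((⌈1 / ζ⌉₊ : ℕ) : ℝ) + 1 ≤ Fintype.card V := by exact_mod_cast hN5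
    have h3 : 1 / ζ ≤ Fintype.card V := by linarith
    rw [div_le_iff₀ hζ] at h3
    linarith
  have hNpos : (0 : ℝ) < Fintype.card V := by
    have : 0 < Fintype.card V := by omega
    exact_mod_cast this
  have hDN' : (D : ℝ) ≤ Fintype.card V := by exact_mod_cast hDN
  -- the partition
  have hptn := hP V (outG G X) D c hT.pec
  obtain ⟨A, F₀, hF₀, hF₀c, hspl, hbal, hF₀j⟩ := hPA V G D X (Hs G X c T)
    (fun i => ptn (outG G X) c i) hN3 (by nlinarith) hDN
    (fun i hi => ⟨Finset.filter_subset _ _, hT.bdd i hi, hT.par i hi⟩)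
    (fun i hi => by
      obtain ⟨h1, h2, h3⟩ := hptn i
      obtain ⟨h4, h5⟩ := MAC_small G D X c T U (ε / 2) hT i hi _ h1 h2 h3
      exact ⟨h1.1, h4, h5⟩)
  -- the set `F`
  have hfl : ⌊2 * ζ * Fintype.card V⌋₊ ≤ F₀.card := by
    apply Nat.floor_le_of_le
    refine le_trans ?_ hF₀c
    exact mul_le_mul_of_nonneg_right hζ1 hNpos.le
  obtain ⟨F, hFF, hFc⟩ := Finset.exists_subset_card_eq hfl
  have hF : F ⊆ Finset.range D := hFF.trans hF₀
  have hFl : ζ * Fintype.card V ≤ F.card := by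
    rw [hFc]
    have := Nat.lt_floor_add_one (2 * ζ * Fintype.card V)
    linarith
  have hFu : (F.card : ℝ) ≤ ε / 10 * Fintype.card V := by
    rw [hFc]
    have h1 : 0 ≤ 2 * ζ * (Fintype.card V : ℝ) := by positivity
    have := Nat.floor_le h1
    refine this.trans ?_
    exact mul_le_mul_of_nonneg_right hζ2 hNpos.le
  -- the exceptional vertices
  set Md := X.filter fun x => θ / 2 * Fintype.card V < (dgs G Xᶜ x : ℝ) + (T x).card with hMdd
  have hMdX : Md ⊆ X := Finset.filter_subset _ _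
  have hMdc : Md.card ≤ q0 := by
    have h1 := MAC_total hS G D X c T U (ε / 2) hT
    have h2 : ∑ x ∈ Md, (θ / 2 * Fintype.card V : ℝ) ≤
        ∑ x ∈ Md, ((dgs G Xᶜ x : ℝ) + (T x).card) :=
      Finset.sum_le_sum fun x hx => (Finset.mem_filter.1 hx).2.le
    have h3 : ∑ x ∈ Md, ((dgs G Xᶜ x : ℝ) + (T x).card) ≤
        ∑ x ∈ X, ((dgs G Xᶜ x : ℝ) + (T x).card) :=
      Finset.sum_le_sum_of_subset_of_nonneg hMdX fun _ _ _ => by positivity
    have h4 : ∑ x ∈ X, ((dgs G Xᶜ x : ℝ) + (T x).card) ≤ U * D := by exact_mod_cast h1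
    rw [Finset.sum_const, nsmul_eq_mul] at h2
    have h5 : (Md.card : ℝ) * (θ / 2 * Fintype.card V) ≤ U * Fintype.card V := by
      have : (U : ℝ) * D ≤ U * Fintype.card V := mul_le_mul_of_nonneg_left hDN' (Nat.cast_nonneg _)
      linarith
    have h6 : (Md.card : ℝ) * θ / 2 ≤ U := by
      have h7 : ((Md.card : ℝ) * θ / 2) * Fintype.card V ≤ U * Fintype.card V := by
        calc ((Md.card : ℝ) * θ / 2) * Fintype.card V =
            (Md.card : ℝ) * (θ / 2 * Fintype.card V) := by ring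
          _ ≤ _ := h5
      exact le_of_mul_le_mul_right h7 hNpos
    have h8 : (Md.card : ℝ) ≤ 2 * U / θ := by
      rw [le_div_iff₀ hθ]
      linarith
    have h9 := Nat.le_ceil (2 * U / θ)
    have h10 : (Md.card : ℝ) ≤ (⌈2 * U / θ⌉₊ : ℝ) := h8.trans h9
    have h11 : Md.card ≤ ⌈2 * U / θ⌉₊ := by exact_mod_cast h10
    omega
  have hlight : ∀ x ∈ X \ Md, (dgs G Xᶜ x : ℝ) + (T x).card ≤ θ / 2 * Fintype.card V := by
    intro x hx
    rw [Finset.mem_sdiff] at hx
    by_contra hcon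
    rw [not_le] at hcon
    exact hx.2 (Finset.mem_filter.2 ⟨hx.1, hcon⟩)
  have heighth : ∀ x ∈ X, (Fintype.card V : ℝ) / 8 ≤ dgs G (X ∩ A) x ∧
      (Fintype.card V : ℝ) / 8 ≤ dgs G (X \ A) x := by
    intro x hx
    have h1 := hspl x
    have h2 : min η (1 / 4) * (Fintype.card V : ℝ) ≤ 1 / 4 * Fintype.card V :=
      mul_le_mul_of_nonneg_right (min_le_right _ _) hNpos.le
    have h3 := hT.lit x hx
    have h4 := (hT.tok x hx).2.1
    have h5 := MAC_split G X x
    have h6 := MAC_splitA G X A x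
    have h4' : ((T x).card : ℝ) + dg G x = D := by exact_mod_cast h4
    have h5' : (dgs G X x : ℝ) + dgs G Xᶜ x = dg G x := by exact_mod_cast h5
    have h6' : (dgs G (X ∩ A) x : ℝ) + dgs G (X \ A) x = dgs G X x := by exact_mod_cast h6
    rw [abs_le] at h1
    have h7 : 0 < ε * (Fintype.card V : ℝ) := by positivity
    constructor <;> nlinarith
  obtain ⟨c2, Rs, hOut⟩ := hMD V G D X c T A F Md hN4 hD hDN hT hF hFu hMdX hMdc heighth
  obtain ⟨e, q, hq, he1, he2, he3⟩ := MAC_enum D F hF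
  have hspl' : ∀ v, |(dgs G (X ∩ A) v : ℝ) - dgs G (X \ A) v| ≤ η * Fintype.card V := by
    intro v
    refine (hspl v).trans ?_
    exact mul_le_mul_of_nonneg_right (min_le_left _ _) hNpos.le
  have hH := hM1 V G D X c T A F Md c2 Rs e q hN1 hD hDN hT hF hFl hFu hspl' hbal
    (fun j hj => (hF₀j j (hFF hj)).2) hMdX hMdc hlight hOut hq he1 he2 he3
  obtain ⟨M, hM⟩ := hCO V (onG G (X \ Md)) A (X \ Md) q F.card _ _ hN2 hH
  refine hM2 V G D X c T U (ε / 2) A F Md c2 Rs e q M hT hF ?_ hMdX hOut hq he1 he2 he3 hM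
  intro v w hvw hc
  obtain ⟨-, h2, -⟩ := hptn (c s(v, w))
  have h3 := (h2 v w hvw).2 rfl
  have h4 := (hF₀j _ (hFF hc)).1 v (by
    rw [h3]
    exact hvw.ne.symm)
  rw [h3] at h4
  exact h4

end

end Pool.Agent.OF

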