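import Pool.Agent.helper86.OF.SpecB

/-!
Project of (MP_c62920_co), module TA2: the template if all degrees are large.
-/

open scoped BigOperators

namespace Pool.Agent.OF

noncomputable section

open Classical

lemma TA2_swap {V : Type} [Fintype V] (G : SimpleGraph V) (S T : Finset V) :
    ep G S T = ep G T S := by
  unfold ep dgs
  simp only [Finset.card_filter]
  rw [Finset.sum_comm]
  refine Finset.sum_congr rfl fun w _ => Finset.sum_congr rfl fun v _ => ?_
  by_cases h : G.Adj v w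
  · rw [if_pos h, if_pos h.symm]
  · rw [if_neg h, if_neg fun h' => h h'.symm]

lemma TA2_split {V : Type} [Fintype V] (G : SimpleGraph V) (Z : Finset V) (v : V) :
    dgs G Zᶜ v + dgs G Z v = dg G v := by
  unfold dg dgs
  simp only [Finset.card_filter]
  rw [add_comm]
  exact Finset.sum_add_sum_compl Z _

lemma TA2_le {V : Type} [Fintype V] (G : SimpleGraph V) (Z : Finset V) (v : V) :
    dgs G Z v ≤ dg G v := by
  have := TA2_split G Z v
  omega

lemma TA2_even {V : Type} [Fintype V] (G : SimpleGraph V) : (∑ v, dg G v) % 2 = 0 := by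
  have h := G.sum_degrees_eq_twice_card_edges
  have h1 : ∀ v, dg G v = G.degree v := by
    intro v
    unfold dg dgs
    rw [← SimpleGraph.card_neighborFinset_eq_degree]
    congr 1
    ext w
    simp
  rw [Finset.sum_congr rfl fun v _ => h1 v, h]
  omega

lemma TA2_ovf {V : Type} [Fintype V] (G : SimpleGraph V) (D : ℕ) (hd : ∀ v, dg G v ≤ D)
    (Z : Finset V) (hZ : (Z.card + Fintype.card V) % 2 = 1)
    (h : ∑ v ∈ Zᶜ, (D - dg G v) + ∑ v ∈ Z, (D - (D - dg G v)) + 2 ≤ D) :
    (Zᶜ).card % 2 = 1 ∧ D * ((Zᶜ).card - 1) + 2 ≤ ep G Zᶜ Zᶜ := by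
  have h0 : (Zᶜ).card + Z.card = Fintype.card V := by
    rw [add_comm]; exact Finset.card_add_card_compl Z
  have hodd : (Zᶜ).card % 2 = 1 := by omega
  refine ⟨hodd, ?_⟩
  have h1 : ∑ v ∈ Z, (D - (D - dg G v)) = ∑ v ∈ Z, dg G v := by
    refine Finset.sum_congr rfl fun v _ => ?_
    have := hd v
    omega
  have h2 : ∑ v ∈ Zᶜ, (D - dg G v) + ∑ v ∈ Zᶜ, dg G v = (Zᶜ).card * D := by
    rw [← Finset.sum_add_distrib, ← smul_eq_mul, ← Finset.sum_const]
    refine Finset.sum_congr rfl fun v _ => ?_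
    have := hd v
    omega
  have h3 : ep G Zᶜ Zᶜ + ep G Zᶜ Z = ∑ v ∈ Zᶜ, dg G v := by
    unfold ep
    rw [← Finset.sum_add_distrib]
    exact Finset.sum_congr rfl fun v _ => TA2_split G Z v
  have h4 : ep G Zᶜ Z ≤ ∑ v ∈ Z, dg G v := by
    rw [TA2_swap]
    exact Finset.sum_le_sum fun v _ => TA2_le G _ v
  have h5 : D * ((Zᶜ).card - 1) + D = (Zᶜ).card * D := by
    obtain ⟨k, hk⟩ : ∃ k, (Zᶜ).card = k + 1 := ⟨(Zᶜ).card - 1, by omega⟩
    rw [hk]
    simp only [Nat.add_sub_cancel]
    ring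
  omega

theorem TA2 (hT : TPL_stmt) : TA2_stmt := by
  intro ε C hε hC
  refine ⟨⌈2 * C⌉₊ + 5, 0, fun V _ G D _ hd hD hv hs => ?_⟩
  have hsum : ∑ v, (D - dg G v) + ∑ v, dg G v = Fintype.card V * D := by
    rw [← Finset.sum_add_distrib, ← Finset.card_univ, ← smul_eq_mul, ← Finset.sum_const]
    refine Finset.sum_congr rfl fun v _ => ?_
    have := hd v
    omega
  have hev := TA2_even G
  rcases hT V D (Fintype.card V) (fun v => D - dg G v) (fun v => Nat.sub_le _ _) (by omega) with
    ⟨Z, hZ, h⟩ | ⟨T, hT1, hT2, hT3⟩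
  · exact Or.inl ⟨Zᶜ, TA2_ovf G D hd Z hZ h⟩
  · refine Or.inr ⟨fun _ => 0, T, ?_⟩
    have hno : ∀ v w, ¬ (outG G Finset.univ).Adj v w := fun v w h =>
      h.2 ⟨Finset.mem_univ _, Finset.mem_univ _⟩
    have hno' : ∀ v i, ¬ has (outG G Finset.univ) (fun _ => 0) v i := fun v i ⟨w, h, _⟩ =>
      hno v w h
    have hH : ∀ i, (Hs G Finset.univ (fun _ => 0) T i) =
        (Finset.univ.filter fun v => i ∈ T v) := by
      intro i
      unfold Hs
      ext v
      rw [Finset.mem_filter, Finset.mem_filter]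
      constructor
      · rintro ⟨h1, h2 | h2⟩
        · exact ⟨h1, h2⟩
        · exact absurd h2 (hno' v i)
      · rintro ⟨h1, h2⟩
        exact ⟨h1, Or.inl h2⟩
    refine ⟨hd, ⟨fun v w h => absurd h (hno v w), fun v w w' h => absurd h (hno v w)⟩,
      fun x _ => ⟨(hT1 x).1, ?_, fun i _ => hno' x i⟩, fun i hi => ?_, fun i hi => ?_,
      fun i _ => ?_, fun x _ => ?_⟩
    · have h1 := (hT1 x).2
      have h2 := hd x
      omega
    · rw [hH i, hT2 i hi, Finset.card_univ]
    · rw [hH i]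
      have h1 := hT3 i hi
      have h2 : ((D * (Finset.univ.filter fun v => i ∈ T v).card : ℕ) : ℝ) ≤
          ((∑ v, (D - dg G v) + 5 * D : ℕ) : ℝ) := by exact_mod_cast h1
      have hDp : (0 : ℝ) < D := by
        have : 0 < D := by omega
        exact_mod_cast this
      have hN : (0 : ℝ) ≤ Fintype.card V := Nat.cast_nonneg _
      have h3 : (Fintype.card V : ℝ) ≤ 2 * D := by nlinarith
      push_cast at h2 hs
      have h4 : (D : ℝ) * ((Finset.univ.filter fun v => i ∈ T v).card : ℝ) ≤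
          D * (2 * C + 5) := by nlinarith
      have h5 : ((Finset.univ.filter fun v => i ∈ T v).card : ℝ) ≤ 2 * C + 5 :=
        le_of_mul_le_mul_left h4 hDp
      have h6 := Nat.le_ceil (2 * C)
      have h7 : ((Finset.univ.filter fun v => i ∈ T v).card : ℝ) ≤
          ((⌈2 * C⌉₊ + 5 : ℕ) : ℝ) := by
        push_cast
        linarith
      exact_mod_cast h7
    · rw [Finset.card_eq_zero.2]
      · exact Nat.zero_le _
      · apply Finset.filter_eq_empty_iff.2
        intro y _ h
        exact h.1 (Finset.mem_univ _)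
    · have h1 := (hT1 x).2
      have h2 := hd x
      have h3 := hv x
      have h4 : dgs G (Finset.univ : Finset V)ᶜ x = 0 := by
        unfold dgs
        rw [Finset.compl_univ]
        simp
      rw [h4, h1, Nat.cast_sub h2]
      push_cast
      linarith

end

end Pool.Agent.OF

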