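import Pool.Agent.helper86.OF.SpecL

/-!
Project of (MP_c62920_co), module HOE: Hoeffding's inequality for signs.
-/

open scoped BigOperators

namespace Pool.Agent.OF

noncomputable section

open Classical

lemma HOE_mgf (ι : Type) [Fintype ι] (a : ι → ℝ) (l B : ℝ) (h : ∑ i, (a i) ^ 2 ≤ B) :
    ∑ σ : ι → Bool, Real.exp (l * ∑ i, (if σ i then a i else - a i)) ≤
      Real.exp (l ^ 2 * B / 2) * 2 ^ (Fintype.card ι) := by
  have h1 : ∑ σ : ι → Bool, Real.exp (l * ∑ i, (if σ i then a i else - a i)) =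
      ∏ i, ∑ b : Bool, Real.exp (l * (if b then a i else - a i)) := by
    rw [Finset.prod_univ_sum, Fintype.piFinset_univ]
    refine Finset.sum_congr rfl fun σ _ => ?_
    rw [Finset.mul_sum, Real.exp_sum]
  rw [h1]
  have h2 : ∀ i, ∑ b : Bool, Real.exp (l * (if b then a i else - a i)) =
      2 * Real.cosh (l * a i) := by
    intro i
    rw [Real.cosh_eq]
    simp
    ring
  have h3 : ∏ i, ∑ b : Bool, Real.exp (l * (if b then a i else - a i)) ≤
      ∏ i, (2 * Real.exp ((l * a i) ^ 2 / 2)) := by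
    apply Finset.prod_le_prod
    · intro i _
      positivity
    · intro i _
      rw [h2]
      have := Real.cosh_le_exp_half_sq (l * a i)
      linarith
  refine h3.trans ?_
  rw [Finset.prod_mul_distrib, ← Real.exp_sum, Finset.prod_const, Finset.card_univ, mul_comm]
  apply mul_le_mul_of_nonneg_right _ (by positivity)
  apply Real.exp_le_exp.2
  have h4 : ∑ i, (l * a i) ^ 2 / 2 = l ^ 2 * (∑ i, (a i) ^ 2) / 2 := by
    rw [Finset.mul_sum, Finset.sum_div]
    refine Finset.sum_congr rfl fun i _ => ?_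
    ring
  rw [h4]
  have h5 : l ^ 2 * (∑ i, (a i) ^ 2) ≤ l ^ 2 * B := mul_le_mul_of_nonneg_left h (sq_nonneg _)
  linarith

lemma HOE_one (ι : Type) [Fintype ι] (a : ι → ℝ) (l t B : ℝ) (hB : 0 < B)
    (h : ∑ i, (a i) ^ 2 ≤ B) (hl : l ^ 2 = (t / B) ^ 2) (F : Finset (ι → Bool))
    (hF : ∀ σ ∈ F, t ^ 2 / B ≤ l * ∑ i, (if σ i then a i else - a i)) :
    ((F.card : ℕ) : ℝ) ≤ Real.exp (-(t ^ 2 / (2 * B))) * 2 ^ (Fintype.card ι) := by
  have h1 := HOE_mgf ι a l B h
  have h2 : ((F.card : ℕ) : ℝ) * Real.exp (t ^ 2 / B) ≤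
      ∑ σ : ι → Bool, Real.exp (l * ∑ i, (if σ i then a i else - a i)) := by
    calc ((F.card : ℕ) : ℝ) * Real.exp (t ^ 2 / B) = ∑ σ ∈ F, Real.exp (t ^ 2 / B) := by
          rw [Finset.sum_const, nsmul_eq_mul]
      _ ≤ ∑ σ ∈ F, Real.exp (l * ∑ i, (if σ i then a i else - a i)) :=
          Finset.sum_le_sum fun σ hσ => Real.exp_le_exp.2 (hF σ hσ)
      _ ≤ _ := Finset.sum_le_univ_sum_of_nonneg fun σ => (Real.exp_pos _).le
  have h3 := h2.trans h1
  have e1 : l ^ 2 * B / 2 = t ^ 2 / B - t ^ 2 / (2 * B) := by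
    rw [hl]
    field_simp
    ring
  rw [e1, sub_eq_add_neg, Real.exp_add] at h3
  have h4 := Real.exp_pos (t ^ 2 / B)
  have h5 : ((F.card : ℕ) : ℝ) * Real.exp (t ^ 2 / B) ≤
      (Real.exp (-(t ^ 2 / (2 * B))) * 2 ^ (Fintype.card ι)) * Real.exp (t ^ 2 / B) := by
    calc _ ≤ _ := h3
      _ = _ := by ring
  exact le_of_mul_le_mul_right h5 h4

theorem HOE : HOE_stmt := by
  intro ι _ a t B ht hB h
  have h1 := HOE_one ι a (t / B) t B hB h rfl
    (Finset.univ.filter fun σ : ι → Bool => t < ∑ i, (if σ i then a i else - a i)) (by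
      intro σ hσ
      rw [Finset.mem_filter] at hσ
      have e1 : t ^ 2 / B = t / B * t := by ring
      rw [e1]
      exact mul_le_mul_of_nonneg_left hσ.2.le (by positivity))
  have h2 := HOE_one ι a (-(t / B)) t B hB h (by ring)
    (Finset.univ.filter fun σ : ι → Bool => t < -∑ i, (if σ i then a i else - a i)) (by
      intro σ hσ
      rw [Finset.mem_filter] at hσ
      have e1 : t ^ 2 / B = t / B * t := by ring
      rw [e1, neg_mul, ← mul_neg]
      exact mul_le_mul_of_nonneg_left hσ.2.le (by positivity))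
  have h3 : (Finset.univ.filter fun σ : ι → Bool =>
      t < |∑ i, (if σ i then a i else - a i)|) ⊆
      (Finset.univ.filter fun σ : ι → Bool => t < ∑ i, (if σ i then a i else - a i)) ∪
      (Finset.univ.filter fun σ : ι → Bool => t < -∑ i, (if σ i then a i else - a i)) := by
    intro σ hσ
    rw [Finset.mem_filter] at hσ
    rw [Finset.mem_union, Finset.mem_filter, Finset.mem_filter]
    rcases lt_abs.1 hσ.2 with h4 | h4
    · exact Or.inl ⟨Finset.mem_univ _, h4⟩
    · exact Or.inr ⟨Finset.mem_univ _, h4⟩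
  have h4 := (Finset.card_le_card h3).trans (Finset.card_union_le _ _)
  have h5 : (((Finset.univ.filter fun σ : ι → Bool =>
      t < |∑ i, (if σ i then a i else - a i)|).card : ℕ) : ℝ) ≤
      (((Finset.univ.filter fun σ : ι → Bool => t < ∑ i, (if σ i then a i else - a i)).card : ℕ) : ℝ)
      + (((Finset.univ.filter fun σ : ι → Bool =>
        t < -∑ i, (if σ i then a i else - a i)).card : ℕ) : ℝ) := by
    exact_mod_cast h4
  linarith

end

end Pool.Agent.OF

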